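import Mathlib

/-!
# Cup stacking along a Hamiltonian path

If a graph has a Hamiltonian path starting at `r`, then all cups can be stacked on `r`.
-/

set_option autoImplicit false

namespace Pool.Agent.L7h10.Cup

open Relation

variable {V : Type*}

/-- A move `u ↦ v` turns the configuration `C` into `C'`. -/
def Move (G : SimpleGraph V) (C C' : V → ℕ) : Prop :=
  ∃ u v : V, 1 ≤ C u ∧ 1 ≤ C v ∧ G.dist u v = C u ∧
    C' u = 0 ∧ C' v = C u + C v ∧ ∀ w, w ≠ u → w ≠ v → C' w = C w

/-- Some finite sequence of moves, starting with one cup on every vertex, puts all the cups on `r`. -/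
def StackableAt (G : SimpleGraph V) (r : V) : Prop :=
  ∃ C : V → ℕ, ReflTransGen (Move G) (fun _ => 1) C ∧ C r = Nat.card V ∧ ∀ v, v ≠ r → C v = 0

section core

variable {G : SimpleGraph V} {f : ℕ → V} {N : ℕ}

/-- `C'` arises from `C` by collecting the `n` cups of the vertices `f i`, `i ∈ I`, on the vertex
`c`. -/
def Coll (f : ℕ → V) (C C' : V → ℕ) (c n : ℕ) (I : Set ℕ) : Prop :=
  C' (f c) = C (f c) + n ∧ (∀ i ∈ I, C' (f i) = 0) ∧ ∀ v, v ≠ f c → (∀ i ∈ I, v ≠ f i) → C' v = C v

lemma dist_le_sub (hadj : ∀ i < N, G.Adj (f i) (f (i + 1))) {a b : ℕ} (hab : a ≤ b) (hb : b ≤ N) :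
    G.Reachable (f a) (f b) ∧ G.dist (f a) (f b) ≤ b - a := by
  induction b, hab using Nat.le_induction with
  | base => simp
  | succ b hab ih =>
    obtain ⟨h1, h2⟩ := ih (by omega)
    obtain ⟨p, hp⟩ := h1.exists_walk_length_eq_dist
    have hA := hadj b (by omega)
    refine ⟨h1.trans hA.reachable, ?_⟩
    have := G.dist_le (p.append (SimpleGraph.Walk.cons hA SimpleGraph.Walk.nil))
    rw [SimpleGraph.Walk.length_append, hp] at this
    simp at this
    omega

/-- The two collecting lemmas: all cups of the vertices `f i`, `a ≤ i ≤ a + n`, can be collected at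
either end. -/
theorem collect (hadj : ∀ i < N, G.Adj (f i) (f (i + 1)))
    (hinj : ∀ i ≤ N, ∀ j ≤ N, f i = f j → i = j) :
    ∀ n a : ℕ, a + n ≤ N →
      (∀ C : V → ℕ, 1 ≤ C (f a) → (∀ i, a < i → i ≤ a + n → C (f i) = 1) →
        ∃ C', ReflTransGen (Move G) C C' ∧ Coll f C C' a n {i | a < i ∧ i ≤ a + n}) ∧
      (∀ C : V → ℕ, 1 ≤ C (f (a + n)) → (∀ i, a ≤ i → i < a + n → C (f i) = 1) →
        ∃ C', ReflTransGen (Move G) C C' ∧ Coll f C C' (a + n) n {i | a ≤ i ∧ i < a + n}) := by
  intro n
  induction n using Nat.strong_induction_on with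
  | _ n ih =>
    intro a ha
    rcases Nat.eq_zero_or_pos n with rfl | hn
    · constructor
      · intro C _ _
        refine ⟨C, ReflTransGen.refl, by simp, ?_, fun v _ _ => rfl⟩
        rintro i ⟨h1, h2⟩
        omega
      · intro C _ _
        refine ⟨C, ReflTransGen.refl, by simp, ?_, fun v _ _ => rfl⟩
        rintro i ⟨h1, h2⟩
        omega
    obtain ⟨hr, hd⟩ := dist_le_sub hadj (Nat.le_add_right a n) ha
    have hne : f a ≠ f (a + n) := fun h => by
      have := hinj a (by omega) (a + n) ha h
      omega
    have hpos : 0 < G.dist (f a) (f (a + n)) := hr.pos_dist_of_ne hne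
    obtain ⟨e, he⟩ : ∃ e, G.dist (f a) (f (a + n)) = e + 1 := ⟨_, (Nat.succ_pred_eq_of_pos hpos).symm⟩
    have hen : e < n := by omega
    constructor
    · intro C hC hC1
      -- collect the last `e + 1` cups on `f (a + n)`
      obtain ⟨-, hD⟩ := ih e hen (a + n - e) (by omega)
      have hs : a + n - e + e = a + n := by omega
      rw [hs] at hD
      obtain ⟨C1, hC1a, hC1b, hC1c, hC1d⟩ := hD C (by rw [hC1 _ (by omega) le_rfl])
        (fun i h1 h2 => hC1 i (by omega) (by omega))
      have hb : C1 (f (a + n)) = e + 1 := by rw [hC1b, hC1 _ (by omega) le_rfl]; omega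
      have hother : ∀ i, i < a + n - e → C1 (f i) = C (f i) := fun i hi =>
        hC1d _ (fun h => by have := hinj i (by omega) _ ha h; omega)
          (fun j hj h => by
            have := hinj i (by omega) j (by have := hj.2; omega) h
            have := hj.1
            omega)
      have haC : C1 (f a) = C (f a) := hother a (by omega)
      -- the jump
      classical
      let C2 : V → ℕ := fun v => if v = f (a + n) then 0 else
        if v = f a then C1 (f (a + n)) + C1 (f a) else C1 v
      have hmv : Move G C1 C2 := by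
        refine ⟨f (a + n), f a, by rw [hb]; omega, by rw [haC]; exact hC, ?_, ?_, ?_, ?_⟩
        · rw [SimpleGraph.dist_comm, he, hb]
        · simp [C2]
        · simp [C2, hne]
        · intro w h1 h2
          simp [C2, h1, h2]
      have hC2a : C2 (f a) = C (f a) + (e + 1) := by
        simp only [C2, if_neg hne, if_true, hb, haC]
        omega
      have hC2i : ∀ i, a < i → i < a + n - e → C2 (f i) = C (f i) := fun i h1 h2 => by
        have e1 : f i ≠ f (a + n) := fun h => by have := hinj i (by omega) _ ha h; omega
        have e2 : f i ≠ f a := fun h => by have := hinj i (by omega) a (by omega) h; omega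
        simp only [C2, if_neg e1, if_neg e2]
        exact hother i h2
      -- collect the rest
      obtain ⟨hU, -⟩ := ih (n - (e + 1)) (by omega) a (by omega)
      have hs2 : a + (n - (e + 1)) = a + n - e - 1 := by omega
      rw [hs2] at hU
      obtain ⟨C3, hC3a, hC3b, hC3c, hC3d⟩ := hU C2 (by rw [hC2a]; omega)
        (fun i h1 h2 => by rw [hC2i i h1 (by omega)]; exact hC1 i h1 (by omega))
      refine ⟨C3, (hC1a.tail hmv).trans hC3a, ?_, ?_, ?_⟩
      · rw [hC3b, hC2a]
        omega
      · rintro i ⟨h1, h2⟩
        rcases lt_or_ge i (a + n - e) with h3 | h3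
        · exact hC3c i ⟨h1, by omega⟩
        · rw [hC3d (f i) (fun h => by have := hinj i (by omega) a (by omega) h; omega)
            (fun j hj h => by
              have := hinj i (by omega) j (by have := hj.2; omega) h
              have := hj.2
              omega)]
          rcases Nat.lt_or_ge i (a + n) with h4 | h4
          · have e1 : f i ≠ f (a + n) := fun h => by have := hinj i (by omega) _ ha h; omega
            have e2 : f i ≠ f a := fun h => by have := hinj i (by omega) a (by omega) h; omega
            simp only [C2, if_neg e1, if_neg e2]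
            exact hC1c i ⟨h3, h4⟩
          · have : i = a + n := by omega
            simp [C2, this]
      · intro v h1 h2
        rw [hC3d v h1 (fun j hj => h2 j ⟨hj.1, by have := hj.2; omega⟩)]
        have e1 : v ≠ f (a + n) := h2 (a + n) ⟨by omega, le_rfl⟩
        simp only [C2, if_neg e1, if_neg h1]
        exact hC1d v e1 (fun j hj => h2 j ⟨by have := hj.1; omega, by have := hj.2; omega⟩)
    · intro C hC hC1
      obtain ⟨hU, -⟩ := ih e hen a (by omega)
      obtain ⟨C1, hC1a, hC1b, hC1c, hC1d⟩ := hU C (by rw [hC1 _ le_rfl (by omega)])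
        (fun i h1 h2 => hC1 i (by omega) (by omega))
      have hb : C1 (f a) = e + 1 := by rw [hC1b, hC1 _ le_rfl (by omega)]; omega
      have hother : ∀ i, a + e < i → i ≤ N → C1 (f i) = C (f i) := fun i hi hi' =>
        hC1d _ (fun h => by have := hinj i (by omega) a (by omega) h; omega)
          (fun j hj h => by
            have := hinj i (by omega) j (by have := hj.2; omega) h
            have := hj.2
            omega)
      have haC : C1 (f (a + n)) = C (f (a + n)) := hother (a + n) (by omega) ha
      classical
      let C2 : V → ℕ := fun v => if v = f a then 0 else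
        if v = f (a + n) then C1 (f a) + C1 (f (a + n)) else C1 v
      have hmv : Move G C1 C2 := by
        refine ⟨f a, f (a + n), by rw [hb]; omega, by rw [haC]; exact hC, ?_, ?_, ?_, ?_⟩
        · rw [he, hb]
        · simp [C2]
        · simp [C2, hne.symm]
        · intro w h1 h2
          simp [C2, h1, h2]
      have hC2a : C2 (f (a + n)) = C (f (a + n)) + (e + 1) := by
        simp only [C2, if_neg hne.symm, if_true, hb, haC]
        omega
      have hC2i : ∀ i, a + e < i → i < a + n → C2 (f i) = C (f i) := fun i h1 h2 => by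
        have e1 : f i ≠ f (a + n) := fun h => by have := hinj i (by omega) _ ha h; omega
        have e2 : f i ≠ f a := fun h => by have := hinj i (by omega) a (by omega) h; omega
        simp only [C2, if_neg e1, if_neg e2]
        exact hother i h1 (by omega)
      obtain ⟨-, hD⟩ := ih (n - (e + 1)) (by omega) (a + e + 1) (by omega)
      have hs2 : a + e + 1 + (n - (e + 1)) = a + n := by omega
      rw [hs2] at hD
      obtain ⟨C3, hC3a, hC3b, hC3c, hC3d⟩ := hD C2 (by rw [hC2a]; omega)
        (fun i h1 h2 => by rw [hC2i i (by omega) h2]; exact hC1 i (by omega) h2)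
      refine ⟨C3, (hC1a.tail hmv).trans hC3a, ?_, ?_, ?_⟩
      · rw [hC3b, hC2a]
        omega
      · rintro i ⟨h1, h2⟩
        rcases lt_or_ge (a + e) i with h3 | h3
        · exact hC3c i ⟨by omega, h2⟩
        · rw [hC3d (f i) (fun h => by have := hinj i (by omega) (a + n) (by omega) h; omega)
            (fun j hj h => by
              have := hinj i (by omega) j (by have := hj.2; omega) h
              have := hj.1
              omega)]
          rcases Nat.eq_or_lt_of_le h1 with h4 | h4
          · simp [C2, ← h4]
          · have e1 : f i ≠ f (a + n) := fun h => by have := hinj i (by omega) _ ha h; omega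
            have e2 : f i ≠ f a := fun h => by have := hinj i (by omega) a (by omega) h; omega
            simp only [C2, if_neg e1, if_neg e2]
            exact hC1c i ⟨h4, h3⟩
      · intro v h1 h2
        rw [hC3d v h1 (fun j hj => h2 j ⟨by have := hj.1; omega, hj.2⟩)]
        have e1 : v ≠ f a := h2 a ⟨le_rfl, by omega⟩
        simp only [C2, if_neg e1, if_neg h1]
        exact hC1d v e1 (fun j hj => h2 j ⟨by have := hj.1; omega, by have := hj.2; omega⟩)

end core

/-- `G` has a Hamiltonian path starting at `r`, as a numbering of the vertices. -/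
def HPath (G : SimpleGraph V) (r : V) : Prop :=
  ∃ (N : ℕ) (f : ℕ → V), f 0 = r ∧ (∀ i < N, G.Adj (f i) (f (i + 1))) ∧
    (∀ i ≤ N, ∀ j ≤ N, f i = f j → i = j) ∧ ∀ v, ∃ i ≤ N, f i = v

theorem HPath.stackable {G : SimpleGraph V} {r : V} (h : HPath G r) : StackableAt G r := by
  obtain ⟨N, f, hr, hadj, hinj, hsurj⟩ := h
  obtain ⟨h1, -⟩ := collect hadj hinj N 0 (by omega)
  obtain ⟨C, hC, hC1, hC2, hC3⟩ := h1 (fun _ => 1) le_rfl (fun _ _ _ => rfl)
  refine ⟨C, hC, ?_, ?_⟩
  · have hcard : Nat.card V = N + 1 := by
      have hb : Function.Bijective (fun i : Fin (N + 1) => f i) := by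
        constructor
        · intro i j hij
          exact Fin.ext (hinj i (by omega) j (by omega) hij)
        · intro v
          obtain ⟨i, hi, h⟩ := hsurj v
          exact ⟨⟨i, by omega⟩, h⟩
      rw [← Nat.card_congr (Equiv.ofBijective _ hb), Nat.card_eq_fintype_card, Fintype.card_fin]
    have h2 : C (f 0) = 1 + N := hC1
    rw [← hr, h2, hcard, Nat.add_comm]
  · intro v hv
    obtain ⟨i, hi, rfl⟩ := hsurj v
    exact hC2 i ⟨Nat.pos_of_ne_zero fun h => hv (by rw [h, hr]), by omega⟩

/-- Hamiltonian paths in the sense of Mathlib. -/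
theorem HPath.of_walk [DecidableEq V] {G : SimpleGraph V} {r b : V} (p : G.Walk r b)
    (hp : p.IsHamiltonian) : HPath G r := by
  refine ⟨p.length, p.getVert, p.getVert_zero, fun i hi => p.adj_getVert_succ hi, ?_, fun v => ?_⟩
  · intro i hi j hj hij
    exact hp.isPath.getVert_injOn hi hj hij
  · obtain ⟨n, h1, h2⟩ := SimpleGraph.Walk.mem_support_iff_exists_getVert.1 (hp.mem_support v)
    exact ⟨n, h2, h1⟩

/-- A Hamiltonian graph in the sense of Mathlib has a Hamiltonian path starting anywhere. -/
theorem HPath.of_isHamiltonian [DecidableEq V] [Fintype V] {G : SimpleGraph V}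
    (hG : G.IsHamiltonian) (r : V) : HPath G r := by
  by_cases hc : Fintype.card V = 1
  · refine ⟨0, fun _ => r, rfl, fun i hi => absurd hi (by omega), fun i hi j hj _ => by omega,
      fun v => ⟨0, le_rfl, ?_⟩⟩
    obtain ⟨x, hx⟩ := Fintype.card_eq_one_iff.1 hc
    rw [hx v]
    exact hx r
  · obtain ⟨a, p, hp⟩ := hG hc
    have hr : r ∈ p.support := hp.mem_support r
    have hq := hp.rotate hr
    set q := p.rotate r hr with hqdef
    -- drop the last vertex of the closed walk `q`
    have hqc := hq.isCycle
    have h3 : 3 ≤ q.length := hqc.three_le_length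
    refine ⟨q.length - 1, q.getVert, q.getVert_zero, fun i hi => q.adj_getVert_succ (by omega),
      ?_, fun v => ?_⟩
    · intro i hi j hj hij
      exact hqc.getVert_injOn' (by simp; omega) (by simp; omega) hij
    · obtain ⟨n, h1, h2⟩ := SimpleGraph.Walk.mem_support_iff_exists_getVert.1 (hq.mem_support v)
      rcases Nat.lt_or_ge n q.length with h | h
      · exact ⟨n, by omega, h1⟩
      · have : n = q.length := by omega
        refine ⟨0, by omega, ?_⟩
        rw [← h1, this, q.getVert_length, q.getVert_zero]

/-- Stackability is invariant under isomorphisms. -/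
theorem HPath.map {W : Type*} {G : SimpleGraph V} {H : SimpleGraph W} (φ : G ≃g H) {r : V}
    (h : HPath G r) : HPath H (φ r) := by
  obtain ⟨N, f, hr, hadj, hinj, hsurj⟩ := h
  refine ⟨N, fun i => φ (f i), by simp [hr], fun i hi => φ.map_adj_iff.2 (hadj i hi), ?_, ?_⟩
  · intro i hi j hj hij
    exact hinj i hi j hj (φ.injective hij)
  · intro v
    obtain ⟨i, hi, h⟩ := hsurj (φ.symm v)
    exact ⟨i, hi, by simp [h]⟩

end Pool.Agent.L7h10.Cup
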