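import Pool.Agent.L7h10.Cup.Core

/-!
# Generalized Johnson graphs

Hamiltonian paths in the Johnson graphs (the revolving door order), and the reduction of the
stackability of all connected generalized Johnson graphs to the theorem of Merino, Mütze and
Namrata.
-/

set_option autoImplicit false

namespace Pool.Agent.L7h10.Cup

open Finset

/-- The generalized Johnson graph `J(m, k, s)`: the `k`-element subsets of an `m`-element set, two of
them being adjacent when their intersection has exactly `s` elements. -/
def J (m k s : ℕ) : SimpleGraph {A : Finset (Fin m) // A.card = k} where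
  Adj A B := A ≠ B ∧ (A.1 ∩ B.1).card = s
  symm := ⟨fun A B h => ⟨h.1.symm, by rw [Finset.inter_comm]; exact h.2⟩⟩
  loopless := ⟨fun A h => h.1 rfl⟩

theorem HPath.of_list {α : Type*} {p : α → Prop} {G : SimpleGraph {a // p a}} {R : α → α → Prop}
    (l : List α) (hp : ∀ a ∈ l, p a) (hall : ∀ a, p a → a ∈ l) (hnd : l.Nodup)
    (hch : ∀ i, ∀ h : i + 1 < l.length, R (l[i]'(by omega)) (l[i + 1]))
    (hR : ∀ a b, R a b → ∀ ha hb, G.Adj ⟨a, ha⟩ ⟨b, hb⟩) (h0 : 0 < l.length) :
    HPath G ⟨l[0], hp _ (List.getElem_mem h0)⟩ := by
  classical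
  refine ⟨l.length - 1, fun i => if h : i < l.length then ⟨l[i], hp _ (List.getElem_mem h)⟩ else
    ⟨l[0], hp _ (List.getElem_mem h0)⟩, by simp [h0], ?_, ?_, ?_⟩
  · intro i hi
    have h1 : i < l.length := by omega
    have h2 : i + 1 < l.length := by omega
    simp only [dif_pos h1, dif_pos h2]
    exact hR _ _ (hch i h2) _ _
  · intro i hi j hj hij
    have h1 : i < l.length := by omega
    have h2 : j < l.length := by omega
    simp only [dif_pos h1, dif_pos h2, Subtype.mk.injEq] at hij
    exact (hnd.getElem_inj_iff).1 hij
  · rintro ⟨a, ha⟩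
    obtain ⟨i, hi, h⟩ := List.getElem_of_mem (hall a ha)
    refine ⟨i, by omega, ?_⟩
    simp only [dif_pos hi]
    exact Subtype.ext h

/-- The revolving door order of the `k`-element subsets of `{0, …, m - 1}`. -/
def rd : ℕ → ℕ → List (Finset ℕ)
  | _, 0 => [∅]
  | 0, _ + 1 => []
  | m + 1, k + 1 => rd m (k + 1) ++ (rd m k).reverse.map (insert m)

lemma rd_zero (m : ℕ) : rd m 0 = [∅] := by cases m <;> rfl

lemma mem_rd (m k : ℕ) (A : Finset ℕ) : A ∈ rd m k ↔ A ⊆ range m ∧ A.card = k := by
  induction m generalizing k A with
  | zero =>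
    cases k with
    | zero => simp [rd, Finset.card_eq_zero]
    | succ k =>
      simp only [rd, List.not_mem_nil, range_zero, subset_empty, false_iff, not_and]
      rintro rfl
      simp
  | succ m ih =>
    cases k with
    | zero =>
      simp only [rd, List.mem_singleton, Finset.card_eq_zero]
      constructor
      · rintro rfl
        simp
      · exact fun h => h.2
    | succ k =>
      simp only [rd, List.mem_append, List.mem_map, List.mem_reverse, ih]
      constructor
      · rintro (⟨h1, h2⟩ | ⟨B, ⟨h1, h2⟩, rfl⟩)
        · exact ⟨h1.trans (range_subset_range.2 (by omega)), h2⟩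
        · refine ⟨?_, ?_⟩
          · rw [range_add_one]
            exact insert_subset_insert _ h1
          · rw [card_insert_of_notMem (fun h => by simpa using h1 h), h2]
      · rintro ⟨h1, h2⟩
        by_cases hm : m ∈ A
        · right
          refine ⟨A.erase m, ⟨?_, by rw [card_erase_of_mem hm, h2]; rfl⟩, insert_erase hm⟩
          intro x hx
          have h3 := h1 (mem_of_mem_erase hx)
          have h4 := ne_of_mem_erase hx
          simp only [mem_range] at h3 ⊢
          omega
        · left
          refine ⟨fun x hx => ?_, h2⟩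
          have h3 := h1 hx
          simp only [mem_range] at h3 ⊢
          have : x ≠ m := fun h => hm (h ▸ hx)
          omega

lemma nodup_rd (m k : ℕ) : (rd m k).Nodup := by
  induction m generalizing k with
  | zero => cases k <;> simp [rd]
  | succ m ih =>
    cases k with
    | zero => simp [rd]
    | succ k =>
      simp only [rd]
      refine List.Nodup.append (ih _) ?_ ?_
      · refine List.Nodup.map_on ?_ ((List.nodup_reverse).2 (ih k))
        intro A hA B hB h
        rw [List.mem_reverse, mem_rd] at hA hB
        have h1 : m ∉ A := fun h => by simpa using hA.1 h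
        have h2 : m ∉ B := fun h => by simpa using hB.1 h
        rw [← erase_insert h1, h, erase_insert h2]
      · intro A hA hB
        rw [List.mem_map] at hB
        obtain ⟨B, -, rfl⟩ := hB
        rw [mem_rd] at hA
        have := hA.1 (mem_insert_self m B)
        simp at this

lemma rd_nil {m k : ℕ} (h : m < k) : rd m k = [] := by
  rw [List.eq_nil_iff_forall_not_mem]
  intro A hA
  rw [mem_rd] at hA
  have := card_le_card hA.1
  rw [card_range] at this
  omega

lemma head_rd {m k : ℕ} (h : k ≤ m) : (rd m k).head? = some (range k) := by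
  induction m generalizing k with
  | zero =>
    obtain rfl : k = 0 := by omega
    rfl
  | succ m ih =>
    cases k with
    | zero => rfl
    | succ k =>
      simp only [rd]
      rcases Nat.lt_or_ge m (k + 1) with h1 | h1
      · obtain rfl : m = k := by omega
        rw [rd_nil h1, List.nil_append, List.head?_map, List.head?_reverse]
        have h2 : (rd m m).getLast? = (rd m m).head? := by
          have hlen : (rd m m).length ≤ 1 := by
            by_contra hc
            push Not at hc
            have e0 := (mem_rd m m _).1 (List.getElem_mem (show 0 < (rd m m).length by omega))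
            have e1 := (mem_rd m m _).1 (List.getElem_mem (show 1 < (rd m m).length by omega))
            have f0 := eq_of_subset_of_card_le e0.1 (by rw [card_range, e0.2])
            have f1 := eq_of_subset_of_card_le e1.1 (by rw [card_range, e1.2])
            have := ((nodup_rd m m).getElem_inj_iff).1 (f0.trans f1.symm)
            omega
          rcases hl : rd m m with _ | ⟨a, t⟩
          · rfl
          · rw [hl] at hlen
            have : t = [] := by
              cases t with
              | nil => rfl
              | cons b t => simp at hlen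
            rw [this]
            rfl
        rw [h2, ih le_rfl]
        simp [range_add_one]
      · rw [List.head?_append, ih h1]
        rfl

lemma last_rd {m k : ℕ} (h : k + 1 ≤ m + 1) :
    (rd (m + 1) (k + 1)).getLast? = some (insert m (range k)) := by
  simp only [rd]
  rw [List.getLast?_append, List.getLast?_map, List.getLast?_reverse, head_rd (by omega)]
  rfl

/-- Adjacency in the Johnson graph, for sets of natural numbers. -/
def Rel (k : ℕ) (A B : Finset ℕ) : Prop := A ≠ B ∧ (A ∩ B).card + 1 = k

lemma Rel.symm {k : ℕ} {A B : Finset ℕ} (h : Rel k A B) : Rel k B A :=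
  ⟨h.1.symm, by rw [inter_comm]; exact h.2⟩

lemma chain_rd (m k : ℕ) : (rd m k).IsChain (Rel k) := by
  induction m generalizing k with
  | zero => cases k <;> simp [rd]
  | succ m ih =>
    cases k with
    | zero => simp [rd]
    | succ k =>
      simp only [rd]
      rw [List.isChain_append]
      refine ⟨ih _, ?_, ?_⟩
      · rw [List.isChain_map]
        have h1 : ((rd m k).reverse).IsChain (Rel k) := by
          rw [List.isChain_reverse]
          exact (ih k).imp fun A B h => h.symm
        have h2 : ∀ A ∈ (rd m k).reverse, m ∉ A := fun A hA h => by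
          rw [List.mem_reverse, mem_rd] at hA
          simpa using hA.1 h
        refine List.IsChain.imp_of_mem_imp ?_ h1
        intro A B hA hB h
        have hA := h2 A hA
        have hB := h2 B hB
        refine ⟨fun he => h.1 ?_, ?_⟩
        · rw [← erase_insert hA, he, erase_insert hB]
        · rw [← insert_inter_distrib, card_insert_of_notMem (fun h => hA (mem_inter.1 h).1), h.2]
      · intro A hA B hB
        rcases Nat.lt_or_ge m (k + 1) with h1 | h1
        · rw [rd_nil h1] at hA
          simp at hA
        obtain ⟨m, rfl⟩ : ∃ m', m = m' + 1 := ⟨m - 1, by omega⟩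
        rw [last_rd (by omega)] at hA
        rw [List.head?_map, List.head?_reverse] at hB
        simp only [Option.mem_def, Option.some.injEq] at hA
        subst hA
        cases k with
        | zero =>
          rw [rd_zero] at hB
          simp only [List.getLast?_singleton, Option.map_some, Option.mem_def,
            Option.some.injEq] at hB
          subst hB
          refine ⟨fun h => ?_, ?_⟩
          · have := h ▸ mem_insert_self m (range 0)
            simp at this
          · simp
        | succ k =>
          rw [last_rd (by omega)] at hB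
          simp only [Option.map_some, Option.mem_def, Option.some.injEq] at hB
          subst hB
          refine ⟨fun h => ?_, ?_⟩
          · have := h ▸ mem_insert_self m (range (k + 1))
            have h3 : m + 1 ∈ insert m (range (k + 1)) := h ▸ mem_insert_self _ _
            simp only [mem_insert, mem_range] at h3
            omega
          · have : insert m (range (k + 1)) ∩ insert (m + 1) (insert m (range k)) =
                insert m (range k) := by
              ext x
              simp only [mem_inter, mem_insert, mem_range]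
              omega
            rw [this, card_insert_of_notMem (by simp; omega), card_range]

/-- The subset of `Fin m` of a set of natural numbers. -/
def toFin (m : ℕ) (A : Finset ℕ) : Finset (Fin m) := univ.filter fun x => x.1 ∈ A

lemma map_toFin {m : ℕ} {A : Finset ℕ} (h : A ⊆ range m) :
    (toFin m A).map Fin.valEmbedding = A := by
  ext x
  simp only [toFin, mem_map, mem_filter, mem_univ, true_and, Fin.valEmbedding_apply]
  constructor
  · rintro ⟨y, hy, rfl⟩
    exact hy
  · intro hx
    exact ⟨⟨x, by simpa using h hx⟩, hx, rfl⟩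

lemma card_toFin {m : ℕ} {A : Finset ℕ} (h : A ⊆ range m) : (toFin m A).card = A.card := by
  conv_rhs => rw [← map_toFin h]
  rw [card_map]

lemma toFin_map {m : ℕ} (A : Finset (Fin m)) : toFin m (A.map Fin.valEmbedding) = A := by
  ext x
  simp [toFin, Fin.val_inj]

lemma toFin_inter (m : ℕ) (A B : Finset ℕ) : toFin m A ∩ toFin m B = toFin m (A ∩ B) := by
  ext x
  simp [toFin]

/-- The Johnson graphs have Hamiltonian paths. -/
theorem exists_hpath_johnson {m k : ℕ} (hk : k ≤ m) (hk0 : 0 < k) :
    ∃ r, HPath (J m k (k - 1)) r := by
  have hmem : ∀ A, A ∈ rd m k → A ⊆ range m ∧ A.card = k := fun A h => (mem_rd m k A).1 h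
  have hlen : 0 < (rd m k).length := by
    rw [List.length_pos_iff]
    intro h
    have := head_rd hk
    rw [h] at this
    simp at this
  refine ⟨_, HPath.of_list (R := fun A B : Finset (Fin m) => A ≠ B ∧ (A ∩ B).card = k - 1)
    ((rd m k).map (toFin m)) ?_ ?_ ?_ ?_ ?_ (by simpa using hlen)⟩
  · intro A hA
    rw [List.mem_map] at hA
    obtain ⟨B, hB, rfl⟩ := hA
    rw [card_toFin (hmem B hB).1, (hmem B hB).2]
  · intro A hA
    rw [List.mem_map]
    refine ⟨A.map Fin.valEmbedding, (mem_rd _ _ _).2 ⟨?_, by rw [card_map, hA]⟩, toFin_map A⟩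
    intro x hx
    rw [mem_map] at hx
    obtain ⟨y, -, rfl⟩ := hx
    simp
  · refine List.Nodup.map_on ?_ (nodup_rd m k)
    intro A hA B hB h
    rw [← map_toFin (hmem A hA).1, h, map_toFin (hmem B hB).1]
  · intro i h
    rw [List.length_map] at h
    have h1 := (List.isChain_iff_getElem.1 (chain_rd m k)) i h
    have hA := hmem _ (List.getElem_mem (show i < (rd m k).length by omega))
    have hB := hmem _ (List.getElem_mem h)
    simp only [List.getElem_map]
    refine ⟨fun he => h1.1 ?_, ?_⟩
    · rw [← map_toFin hA.1, he, map_toFin hB.1]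
    · rw [toFin_inter, card_toFin (inter_subset_left.trans hA.1)]
      have := h1.2
      omega
  · rintro A B ⟨h1, h2⟩ hA hB
    exact ⟨fun h => h1 (congrArg Subtype.val h), h2⟩

/-- The generalized Johnson graphs are vertex-transitive. -/
theorem exists_iso (m k s : ℕ) (A B : {A : Finset (Fin m) // A.card = k}) :
    ∃ φ : J m k s ≃g J m k s, φ A = B := by
  classical
  let e : A.1 ≃ B.1 := Finset.equivOfCardEq (A.2.trans B.2.symm)
  let σ : Equiv.Perm (Fin m) := Equiv.extendSubtype e
  have hσ : A.1.map σ.toEmbedding = B.1 := by
    refine eq_of_subset_of_card_le ?_ (by rw [card_map, A.2, B.2])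
    intro x hx
    rw [mem_map] at hx
    obtain ⟨y, hy, rfl⟩ := hx
    exact Equiv.extendSubtype_mem e y hy
  let E : {A : Finset (Fin m) // A.card = k} ≃ {A : Finset (Fin m) // A.card = k} :=
    { toFun := fun A => ⟨A.1.map σ.toEmbedding, by rw [card_map, A.2]⟩
      invFun := fun A => ⟨A.1.map σ.symm.toEmbedding, by rw [card_map, A.2]⟩
      left_inv := fun A => by
        apply Subtype.ext
        simp [Finset.map_map]
      right_inv := fun A => by
        apply Subtype.ext
        simp [Finset.map_map] }
  refine ⟨⟨E, ?_⟩, Subtype.ext hσ⟩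
  intro C D
  show (E C ≠ E D ∧ (C.1.map σ.toEmbedding ∩ D.1.map σ.toEmbedding).card = s) ↔ _
  rw [E.injective.ne_iff, ← map_inter, card_map]
  rfl

theorem johnson {m k : ℕ} (hk0 : 0 < k) (r : {A : Finset (Fin m) // A.card = k}) :
    HPath (J m k (k - 1)) r := by
  have hk : k ≤ m := by
    have := card_le_univ r.1
    rw [r.2, Fintype.card_fin] at this
    exact this
  obtain ⟨r0, h0⟩ := exists_hpath_johnson hk hk0
  obtain ⟨φ, hφ⟩ := exists_iso m k (k - 1) r0 r
  rw [← hφ]
  exact h0.map φ

/-- A Hamiltonian path of the Petersen graph. -/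
theorem petersen (r : {A : Finset (Fin 5) // A.card = 2}) : HPath (J 5 2 0) r := by
  have hch : List.IsChain (fun A B : Finset (Fin 5) => A ≠ B ∧ (A ∩ B).card = 0)
    [{0, 1}, {2, 3}, {0, 4}, {1, 2}, {3, 4}, {0, 2}, {1, 4}, {0, 3}, {2, 4}, {1, 3}] := by decide
  have h := HPath.of_list (G := J 5 2 0) (p := fun A : Finset (Fin 5) => A.card = 2)
    (R := fun A B : Finset (Fin 5) => A ≠ B ∧ (A ∩ B).card = 0)
    [{0, 1}, {2, 3}, {0, 4}, {1, 2}, {3, 4}, {0, 2}, {1, 4}, {0, 3}, {2, 4}, {1, 3}]
    (by decide) (by decide) (by decide) (fun i hi => List.isChain_iff_getElem.1 hch i hi)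
    (fun A B h hA hB => ⟨fun h' => h.1 (congrArg Subtype.val h'), h.2⟩) (by decide)
  obtain ⟨φ, hφ⟩ := exists_iso 5 2 0 _ r
  rw [← hφ]
  exact h.map φ

/-- `J(m, k, s)` with `2 k = m + s` is isomorphic to the Kneser graph `J(m, m - k, 0)`. -/
def compl {m k s : ℕ} (hk : k ≤ m) (h : 2 * k = m + s) : J m k s ≃g J m (m - k) 0 where
  toFun A := ⟨A.1ᶜ, by rw [card_compl, A.2, Fintype.card_fin]⟩
  invFun A := ⟨A.1ᶜ, by rw [card_compl, A.2, Fintype.card_fin]; omega⟩
  left_inv A := Subtype.ext (compl_compl _)
  right_inv A := Subtype.ext (compl_compl _)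
  map_rel_iff' := by
    intro A B
    show ((⟨A.1ᶜ, _⟩ : {A : Finset (Fin m) // A.card = m - k}) ≠ ⟨B.1ᶜ, _⟩ ∧
      (A.1ᶜ ∩ B.1ᶜ).card = 0) ↔ (A ≠ B ∧ (A.1 ∩ B.1).card = s)
    have h1 : A.1ᶜ ∩ B.1ᶜ = (A.1 ∪ B.1)ᶜ := by
      ext x
      simp
    have h2 := card_union_add_card_inter A.1 B.1
    have h3 := card_le_univ (A.1 ∪ B.1)
    rw [A.2, B.2] at h2
    rw [Fintype.card_fin] at h3
    have h6 : ((A.1 ∪ B.1)ᶜ).card = m - (A.1 ∪ B.1).card := by rw [card_compl, Fintype.card_fin]
    rw [h1, h6]
    constructor
    · rintro ⟨h4, h5⟩
      refine ⟨fun h => h4 (by subst h; rfl), by omega⟩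
    · rintro ⟨h4, h5⟩
      refine ⟨fun h => h4 ?_, by omega⟩
      rw [Subtype.mk.injEq, compl_inj_iff] at h
      exact Subtype.ext h

theorem single {V : Type*} [Subsingleton V] (G : SimpleGraph V) (r : V) : HPath G r :=
  ⟨0, fun _ => r, rfl, fun i hi => absurd hi (by omega), fun i hi j hj _ => by omega,
    fun _ => ⟨0, le_rfl, Subsingleton.elim _ _⟩⟩

/-- The theorem of Merino, Mütze and Namrata implies that all connected generalized Johnson graphs
have Hamiltonian paths starting anywhere. -/
theorem all_of_hamiltonian
    (hM : ∀ m k s : ℕ, s < k → 2 * k + 1 ≤ m + s → ¬ (m = 5 ∧ k = 2 ∧ s = 0) →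
      (J m k s).IsHamiltonian) (m k s : ℕ) (hs : s < k) (hc : (J m k s).Connected)
    (r : {A : Finset (Fin m) // A.card = k}) : HPath (J m k s) r := by
  have key : ∀ m k s : ℕ, s < k → 2 * k + 1 ≤ m + s →
      ∀ r : {A : Finset (Fin m) // A.card = k}, HPath (J m k s) r := by
    intro m k s h1 h2 r
    by_cases h3 : m = 5 ∧ k = 2 ∧ s = 0
    · obtain ⟨rfl, rfl, rfl⟩ := h3
      exact petersen r
    · exact HPath.of_isHamiltonian (hM m k s h1 h2 h3) r
  have hk : k ≤ m := by
    have := card_le_univ r.1
    rw [r.2, Fintype.card_fin] at this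
    exact this
  rcases Nat.lt_or_ge (2 * k) (m + s) with h | h
  · exact key m k s hs (by omega) r
  have hadj : ∀ A B, (J m k s).Adj A B → 2 * k = m + s ∧ A.1 ∪ B.1 = univ := by
    rintro A B ⟨-, h1⟩
    have h2 := card_union_add_card_inter A.1 B.1
    have h3 := card_le_univ (A.1 ∪ B.1)
    rw [A.2, B.2] at h2
    rw [Fintype.card_fin] at h3
    refine ⟨by omega, eq_univ_of_card _ ?_⟩
    rw [Fintype.card_fin]
    omega
  rcases Nat.eq_or_lt_of_le h with h | h
  · -- the complements form a Kneser graph
    rcases Nat.eq_zero_or_pos s with rfl | hs0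
    · -- a perfect matching
      by_cases hsub : Subsingleton {A : Finset (Fin m) // A.card = k}
      · exact single _ r
      have hr' : (r.1ᶜ).card = k := by
        rw [card_compl, r.2, Fintype.card_fin]
        omega
      have hall : ∀ v, v = r ∨ v = ⟨r.1ᶜ, hr'⟩ := by
        intro v
        obtain ⟨p⟩ := hc.preconnected r v
        have hstep : ∀ A B, (J m k 0).Adj A B → B.1 = A.1ᶜ := by
          intro A B hAB
          have h1 := (hadj A B hAB).2
          have h2 := hAB.2
          rw [card_eq_zero] at h2
          exact (IsCompl.compl_eq ⟨disjoint_iff_inter_eq_empty.2 h2,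
            codisjoint_iff.2 h1⟩).symm
        have hw : ∀ {a b} (p : (J m k 0).Walk a b), b.1 = a.1 ∨ b.1 = a.1ᶜ := by
          intro a b p
          induction p with
          | nil => exact Or.inl rfl
          | cons hA _ ih =>
            have h1 := hstep _ _ hA
            rcases ih with h2 | h2
            · exact Or.inr (h2.trans h1)
            · left
              rw [h2, h1, compl_compl]
        rcases hw p with h1 | h1
        · exact Or.inl (Subtype.ext h1)
        · exact Or.inr (Subtype.ext h1)
      have hne : r ≠ ⟨r.1ᶜ, hr'⟩ := by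
        intro he
        apply hsub
        exact ⟨fun a b => by
          rcases hall a with h1 | h1 <;> rcases hall b with h2 | h2 <;>
            rw [h1, h2] <;> first | rfl | exact he | exact he.symm⟩
      have hadj' : (J m k 0).Adj r ⟨r.1ᶜ, hr'⟩ := ⟨hne, by simp⟩
      refine ⟨1, fun i => if i = 0 then r else ⟨r.1ᶜ, hr'⟩, by simp, ?_, ?_, ?_⟩
      · intro i hi
        obtain rfl : i = 0 := by omega
        simpa using hadj'
      · intro i hi j hj hij
        rcases Nat.le_one_iff_eq_zero_or_eq_one.1 hi with rfl | rfl <;>
          rcases Nat.le_one_iff_eq_zero_or_eq_one.1 hj with rfl | rfl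
        · rfl
        · exact absurd (by simpa using hij) hne
        · exact absurd (by simpa using hij.symm) hne
        · rfl
      · intro v
        rcases hall v with h1 | h1
        · exact ⟨0, by omega, by simp [h1]⟩
        · exact ⟨1, le_rfl, by simp [h1]⟩
    · have e := compl (s := s) hk h.symm
      have h1 := key m (m - k) 0 (by omega) (by omega) (compl hk h.symm r)
      have h2 := h1.map (compl (s := s) hk h.symm).symm
      rwa [RelIso.symm_apply_apply] at h2
  · -- no edges
    have hsub : Subsingleton {A : Finset (Fin m) // A.card = k} := by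
      refine ⟨fun a b => ?_⟩
      obtain ⟨p⟩ := hc.preconnected a b
      cases p with
      | nil => rfl
      | cons hA _ =>
        have := (hadj _ _ hA).1
        omega
    exact single _ r

end Pool.Agent.L7h10.Cup
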